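import Pool.Agent.H32.N6H.Targets
import Pool.Agent.H23.N6.Hens

/-! HN3: Hensel's lemma for two quadratic forms and a linear form. -/

set_option autoImplicit false

open Polynomial Matrix NumberField IsDedekindDomain Pool.Agent.H32.QC Pool.Agent.H34.N6
  Pool.Agent.H32.N6H

namespace Pool.Agent.H4.N6H

open Pool.Agent.H23.N6

section

variable {F : Type} [NormedField F] {m : ℕ}

/-- the three equations -/
def Ph (A B : Matrix (Fin m) (Fin m) F) (l x : Fin m → F) : Fin 3 → F :=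
  ![x ⬝ᵥ (A *ᵥ x), x ⬝ᵥ (B *ᵥ x), l ⬝ᵥ x]

/-- the Jacobian -/
def Jc (A B : Matrix (Fin m) (Fin m) F) (l x : Fin m → F) : Fin 3 → Fin m → F :=
  ![2 • (A *ᵥ x), 2 • (B *ᵥ x), l]

/-- the second order terms -/
def Nq (A B : Matrix (Fin m) (Fin m) F) (h : Fin m → F) : Fin 3 → F :=
  ![h ⬝ᵥ (A *ᵥ h), h ⬝ᵥ (B *ᵥ h), 0]

lemma quad_add {A : Matrix (Fin m) (Fin m) F} (hA : A.IsSymm) (x h : Fin m → F) :
    (x + h) ⬝ᵥ (A *ᵥ (x + h)) = x ⬝ᵥ (A *ᵥ x) + (2 • (A *ᵥ x)) ⬝ᵥ h + h ⬝ᵥ (A *ᵥ h) := by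
  have e1 : x ⬝ᵥ (A *ᵥ h) = (A *ᵥ x) ⬝ᵥ h := by
    rw [Matrix.dotProduct_mulVec]
    congr 1
    rw [← Matrix.mulVec_transpose, hA.eq]
  have e2 : h ⬝ᵥ (A *ᵥ x) = (A *ᵥ x) ⬝ᵥ h := dotProduct_comm _ _
  rw [Matrix.mulVec_add, dotProduct_add, add_dotProduct, add_dotProduct, e1, e2, two_nsmul,
    add_dotProduct]
  ring

lemma ph_add {A B : Matrix (Fin m) (Fin m) F} (hA : A.IsSymm) (hB : B.IsSymm)
    (l x h : Fin m → F) (p : Fin 3) :
    Ph A B l (x + h) p = Ph A B l x p + (Jc A B l x p) ⬝ᵥ h + Nq A B h p := by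
  fin_cases p
  · exact quad_add hA x h
  · exact quad_add hB x h
  · show l ⬝ᵥ (x + h) = l ⬝ᵥ x + l ⬝ᵥ h + 0
    rw [dotProduct_add, add_zero]

variable [IsUltrametricDist F]

lemma dot_le {u v : Fin m → F} {a b : ℝ} (ha : 0 ≤ a) (hb : 0 ≤ b) (hu : ∀ i, ‖u i‖ ≤ a)
    (hv : ∀ i, ‖v i‖ ≤ b) : ‖u ⬝ᵥ v‖ ≤ a * b := by
  unfold dotProduct
  refine norm_sum_le_of _ _ (by positivity) fun i _ => ?_
  rw [norm_mul]
  exact mul_le_mul (hu i) (hv i) (norm_nonneg _) ha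

lemma mulVec_le {A : Matrix (Fin m) (Fin m) F} (hA : ∀ i j, ‖A i j‖ ≤ 1) {v : Fin m → F}
    {b : ℝ} (hb : 0 ≤ b) (hv : ∀ i, ‖v i‖ ≤ b) (i : Fin m) : ‖(A *ᵥ v) i‖ ≤ b := by
  have := dot_le zero_le_one hb (hA i) hv
  rwa [one_mul] at this

lemma two_le (x : F) : ‖2 • x‖ ≤ ‖x‖ := by
  rw [nsmul_eq_mul, norm_mul]
  calc ‖((2 : ℕ) : F)‖ * ‖x‖ ≤ 1 * ‖x‖ :=
        mul_le_mul_of_nonneg_right (norm_natCast_le 2) (norm_nonneg _)
    _ = ‖x‖ := one_mul _

lemma nq_le {A B : Matrix (Fin m) (Fin m) F} (hA : ∀ i j, ‖A i j‖ ≤ 1)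
    (hB : ∀ i j, ‖B i j‖ ≤ 1) {h : Fin m → F} {b : ℝ} (hb : 0 ≤ b) (hh : ∀ i, ‖h i‖ ≤ b)
    (p : Fin 3) : ‖Nq A B h p‖ ≤ b * b := by
  fin_cases p
  · exact dot_le hb hb hh (mulVec_le hA hb hh)
  · exact dot_le hb hb hh (mulVec_le hB hb hh)
  · show ‖(0 : F)‖ ≤ b * b
    rw [norm_zero]
    positivity

/-- the Jacobian changes little -/
lemma jc_le {A B : Matrix (Fin m) (Fin m) F} (hA : ∀ i j, ‖A i j‖ ≤ 1)
    (hB : ∀ i j, ‖B i j‖ ≤ 1) (l : Fin m → F) {x y : Fin m → F} {b : ℝ} (hb : 0 ≤ b)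
    (hh : ∀ i, ‖(y - x) i‖ ≤ b) (p : Fin 3) (i : Fin m) :
    ‖(Jc A B l y p - Jc A B l x p) i‖ ≤ b := by
  have key : ∀ M : Matrix (Fin m) (Fin m) F, (∀ i j, ‖M i j‖ ≤ 1) →
      ‖(2 • (M *ᵥ y) - 2 • (M *ᵥ x)) i‖ ≤ b := by
    intro M hM
    have e : 2 • (M *ᵥ y) - 2 • (M *ᵥ x) = 2 • (M *ᵥ (y - x)) := by
      rw [Matrix.mulVec_sub, smul_sub]
    rw [e, Pi.smul_apply]
    exact (two_le _).trans (mulVec_le hM hb hh i)
  fin_cases p
  · exact key A hA
  · exact key B hB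
  · show ‖(l - l) i‖ ≤ b
    rw [sub_self, Pi.zero_apply, norm_zero]
    exact hb

end

theorem pf_HN3 : T_HN3 := by
  intro F _ _ _ m A B l x R hAs hBs hA hB hl hx hx1 hR h1 h2 h3 h4
  -- the radius
  have hPh : ∀ p : Fin 3, ‖Ph A B l x p‖ < 1 := by
    intro p
    fin_cases p
    · exact h1
    · exact h2
    · exact h3
  obtain ⟨r, hr0, hr1, hr2, hr3⟩ : ∃ r : ℝ, 0 ≤ r ∧ r < 1 ∧ (∀ p, ‖Ph A B l x p‖ ≤ r) ∧
      ∀ p q : Fin 3, ‖(Jc A B l x p) ⬝ᵥ R q - (1 : Matrix (Fin 3) (Fin 3) F) p q‖ ≤ r := by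
    obtain ⟨p0, hp0⟩ := Finite.exists_max fun p : Fin 3 => ‖Ph A B l x p‖
    obtain ⟨q0, hq0⟩ := Finite.exists_max fun q : Fin 3 × Fin 3 =>
      ‖(Jc A B l x q.1) ⬝ᵥ R q.2 - (1 : Matrix (Fin 3) (Fin 3) F) q.1 q.2‖
    refine ⟨max ‖Ph A B l x p0‖
      ‖(Jc A B l x q0.1) ⬝ᵥ R q0.2 - (1 : Matrix (Fin 3) (Fin 3) F) q0.1 q0.2‖,
      (norm_nonneg _).trans (le_max_left _ _), max_lt (hPh p0) (h4 _ _),
      fun p => (hp0 p).trans (le_max_left _ _), fun p q => (hq0 (p, q)).trans (le_max_right _ _)⟩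
  -- the iteration
  obtain ⟨st, hst⟩ : ∃ st : (Fin m → F) → (Fin m → F),
      st = fun z => -(∑ q : Fin 3, Ph A B l z q • R q) := ⟨_, rfl⟩
  obtain ⟨s, hs0, hss⟩ : ∃ s : ℕ → (Fin m → F), s 0 = x ∧ ∀ n, s (n + 1) = s n + st (s n) :=
    ⟨fun n => Nat.rec x (fun _ z => z + st z) n, rfl, fun _ => rfl⟩
  have hstep : ∀ (z : Fin m → F) (b : ℝ), 0 ≤ b → (∀ q, ‖Ph A B l z q‖ ≤ b) →
      ∀ i, ‖st z i‖ ≤ b := by
    intro z b hb hz i
    have e1 : st z i = -(∑ q : Fin 3, Ph A B l z q * R q i) := by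
      rw [hst]
      simp [Finset.sum_apply]
    rw [e1, norm_neg]
    refine norm_sum_le_of _ _ hb fun q _ => ?_
    rw [norm_mul]
    calc ‖Ph A B l z q‖ * ‖R q i‖ ≤ b * 1 :=
          mul_le_mul (hz q) (hR q i) (norm_nonneg _) hb
      _ = b := mul_one _
  have key : ∀ n, (∀ i, ‖(s n - x) i‖ ≤ r) ∧ ∀ p, ‖Ph A B l (s n) p‖ ≤ r ^ (n + 1) := by
    intro n
    induction n with
    | zero =>
      rw [hs0]
      refine ⟨fun i => ?_, fun p => ?_⟩
      · rw [sub_self, Pi.zero_apply, norm_zero]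
        exact hr0
      · rw [zero_add, pow_one]
        exact hr2 p
    | succ n ih =>
      have hpow : r ^ (n + 1) ≤ r := by
        calc r ^ (n + 1) = r ^ n * r := pow_succ _ _
          _ ≤ 1 * r := mul_le_mul_of_nonneg_right (pow_le_one₀ hr0 hr1.le) hr0
          _ = r := one_mul _
      have hpn : (0 : ℝ) ≤ r ^ (n + 1) := by positivity
      have hh := hstep (s n) (r ^ (n + 1)) hpn ih.2
      have hd : ∀ i, ‖(s (n + 1) - x) i‖ ≤ r := by
        intro i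
        have e1 : (s (n + 1) - x) i = (s n - x) i + st (s n) i := by
          rw [hss]
          simp only [Pi.sub_apply, Pi.add_apply]
          ring
        rw [e1]
        exact (IsUltrametricDist.norm_add_le_max _ _).trans
          (max_le (ih.1 i) ((hh i).trans hpow))
      refine ⟨hd, fun p => ?_⟩
      rw [hss, ph_add hAs hBs]
      -- the linear part
      have hJ : ∀ q : Fin 3,
          ‖(Jc A B l (s n) p) ⬝ᵥ R q - (1 : Matrix (Fin 3) (Fin 3) F) p q‖ ≤ r := by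
        intro q
        have e1 : (Jc A B l (s n) p) ⬝ᵥ R q - (1 : Matrix (Fin 3) (Fin 3) F) p q =
            (Jc A B l (s n) p - Jc A B l x p) ⬝ᵥ R q +
              ((Jc A B l x p) ⬝ᵥ R q - (1 : Matrix (Fin 3) (Fin 3) F) p q) := by
          rw [sub_dotProduct]
          ring
        rw [e1]
        refine (IsUltrametricDist.norm_add_le_max _ _).trans (max_le ?_ (hr3 p q))
        have := dot_le hr0 zero_le_one (jc_le hA hB l hr0 ih.1 p) (hR q)
        rwa [mul_one] at this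
      have e2 : Ph A B l (s n) p + (Jc A B l (s n) p) ⬝ᵥ st (s n) =
          -(∑ q : Fin 3, Ph A B l (s n) q *
            ((Jc A B l (s n) p) ⬝ᵥ R q - (1 : Matrix (Fin 3) (Fin 3) F) p q)) := by
        rw [hst]
        simp only [dotProduct_neg, dotProduct_sum, dotProduct_smul, smul_eq_mul, mul_sub,
          Finset.sum_sub_distrib]
        have e3 : ∑ q : Fin 3, Ph A B l (s n) q * (1 : Matrix (Fin 3) (Fin 3) F) p q =
            Ph A B l (s n) p := by
          simp [Matrix.one_apply]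
        rw [e3]
        ring
      rw [e2]
      refine (IsUltrametricDist.norm_add_le_max _ _).trans (max_le ?_ ?_)
      · rw [norm_neg]
        refine norm_sum_le_of _ _ (by positivity) fun q _ => ?_
        rw [norm_mul, pow_succ r (n + 1)]
        exact mul_le_mul (ih.2 q) (hJ q) (norm_nonneg _) hpn
      · refine (nq_le hA hB hpn hh p).trans ?_
        rw [pow_succ r (n + 1)]
        exact mul_le_mul_of_nonneg_left hpow hpn
  -- the limit
  have hcau : CauchySeq s := by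
    apply cauchySeq_of_le_geometric r r hr1
    intro n
    rw [dist_comm, dist_eq_norm]
    have hpn : (0 : ℝ) ≤ r ^ (n + 1) := by positivity
    have e1 : s (n + 1) - s n = st (s n) := by
      rw [hss]
      abel
    rw [e1, pi_norm_le_iff_of_nonneg (by positivity)]
    intro i
    calc ‖st (s n) i‖ ≤ r ^ (n + 1) := hstep (s n) _ hpn (key n).2 i
      _ = r * r ^ n := pow_succ' _ _
  obtain ⟨y, hy⟩ := cauchySeq_tendsto_of_complete hcau
  have hPy : ∀ p, Ph A B l y p = 0 := by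
    intro p
    have hc : Continuous fun z : Fin m → F => Ph A B l z p := by
      fin_cases p
      · exact continuous_id.dotProduct (continuous_const.matrix_mulVec continuous_id)
      · exact continuous_id.dotProduct (continuous_const.matrix_mulVec continuous_id)
      · exact continuous_const.dotProduct continuous_id
    have h5 : Filter.Tendsto (fun n => Ph A B l (s n) p) Filter.atTop (nhds (Ph A B l y p)) :=
      (hc.tendsto y).comp hy
    have h6 : Filter.Tendsto (fun n => Ph A B l (s n) p) Filter.atTop (nhds 0) := by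
      apply squeeze_zero_norm (fun n => (key n).2 p)
      exact (tendsto_pow_atTop_nhds_zero_of_lt_one hr0 hr1).comp
        (Filter.tendsto_add_atTop_nat 1)
    exact tendsto_nhds_unique h5 h6
  refine ⟨y, ?_, hPy 0, hPy 1, hPy 2⟩
  rintro rfl
  obtain ⟨i, hi⟩ := hx1
  have h7 : ‖((0 : Fin m → F) - x) i‖ ≤ r := by
    have h8 : Filter.Tendsto (fun n => ‖(s n - x) i‖) Filter.atTop
        (nhds ‖((0 : Fin m → F) - x) i‖) := by
      have h9 : Continuous fun z : Fin m → F => ‖(z - x) i‖ :=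
        ((continuous_apply i).comp (continuous_id.sub continuous_const)).norm
      exact (h9.tendsto 0).comp hy
    exact le_of_tendsto h8 (Filter.Eventually.of_forall fun n => (key n).1 i)
  rw [zero_sub, Pi.neg_apply, norm_neg, hi] at h7
  linarith

end Pool.Agent.H4.N6H
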